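import Pool.Agent.R550.W1.Wrap

/-!
# Edge-bicolored graphs and dual separators
-/

namespace Pool.Agent.R550.DS

open Pool.Agent.NPC Pool.Agent.H557R2.Fpt

/-- The blue graph of the edge-bicolored graph given by the list `A`: its vertices are
`0, …, n - 1`, where `n` is the length of `A`, and two different vertices `u`, `v` are adjacent if `v`
occurs in the first component of the `u`-th entry or `u` in that of the `v`-th entry. -/
def blue (A : List (List ℕ × List ℕ)) : SimpleGraph (Fin A.length) :=
  SimpleGraph.fromRel fun u v => (v : ℕ) ∈ A[u].1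

/-- The red graph (second components). -/
def red (A : List (List ℕ × List ℕ)) : SimpleGraph (Fin A.length) :=
  SimpleGraph.fromRel fun u v => (v : ℕ) ∈ A[u].2

/-- The graph `G - S` (the vertices of `S` are kept as isolated vertices). -/
def del {V : Type} (G : SimpleGraph V) (S : Set V) : SimpleGraph V where
  Adj u v := G.Adj u v ∧ u ∉ S ∧ v ∉ S
  symm := ⟨fun _ _ h => ⟨h.1.symm, h.2.2, h.2.1⟩⟩
  loopless := ⟨fun _ h => h.1.ne rfl⟩

/-- `S` is a dual `(s, t)`-separator for the blue graph `B` and the red graph `R`. -/
def DualSep {V : Type} (B R : SimpleGraph V) (s t : V) (S : Finset V) : Prop :=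
  s ∉ S ∧ t ∉ S ∧ ¬ (del B (S : Set V)).Reachable s t ∧ ¬ (del R (S : Set V)).Reachable s t

/-- Dual Separator for Two Terminals, with parameter `k`: instances are lists `A` giving an
edge-bicolored graph (every edge is either blue or red) and two distinct vertices `s`, `t`. -/
def dualSepTwo : PProblem :=
  {y | ∃ (A : List (List ℕ × List ℕ)) (s t : ℕ) (hs : s < A.length) (ht : t < A.length),
    s ≠ t ∧ Disjoint (blue A) (red A) ∧ y.1 = bits (A, s, t) ∧
    ∃ S : Finset (Fin A.length), S.card ≤ y.2 ∧ DualSep (blue A) (red A) ⟨s, hs⟩ ⟨t, ht⟩ S}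

end Pool.Agent.R550.DS
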