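import Pool.Agent.R550.DS.Defs

/-!
# Grids of chains
-/

namespace Pool.Agent.R550.DS

/-- Labels `(τ, i, j, u, v, c)`: `τ = 0` elements, `τ = 1` the separating nodes of the rows, `τ = 2`
those of the columns, `τ = 3`, `τ = 4` the terminals; `c` is the number of the copy. -/
abbrev Lb : Type := ℕ × ℕ × ℕ × ℕ × ℕ × ℕ

/-- Adjacency in the graph given by the bit string `x`. -/
def adjB (n : ℕ) (x : List Bool) (u v : ℕ) : Bool :=
  !decide (u = v) && x.getD (min u v * n + max u v) false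

/-- The pair `(u, v)` may be chosen in the cell `(i, j)`. -/
def alw (n : ℕ) (x : List Bool) (i j u v : ℕ) : Bool :=
  (decide (i = j) && decide (u = v)) || (!decide (i = j) && adjB n x u v)

/-- A live element. -/
def live (n : ℕ) (x : List Bool) (a : Lb) : Bool :=
  decide (a.2.2.2.2.2 = 0) || !alw n x a.2.1 a.2.2.1 a.2.2.2.1 a.2.2.2.2.1

/-- The blue adjacencies. -/
def T (n : ℕ) (x : List Bool) (a b : Lb) : Bool :=
  (decide (a.1 = 3) && decide (b.1 = 1) && decide (b.2.2.2.1 = 0)) ||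
  (decide (a.1 = 1) && decide (b.1 = 4) && decide (a.2.2.2.1 = n)) ||
  (decide (a.1 = 1) && decide (b.1 = 0) && decide (a.2.1 = b.2.1) &&
    decide (a.2.2.2.1 = b.2.2.2.1) && decide (b.2.2.2.1 < n) && decide (b.2.2.2.2.1 = 0) &&
    live n x b) ||
  (decide (a.1 = 0) && decide (b.1 = 0) && decide (a.2.1 = b.2.1) && decide (a.2.2.1 = b.2.2.1) &&
    decide (a.2.2.2.1 = b.2.2.2.1) && decide (a.2.2.2.1 < n) &&
    decide (b.2.2.2.2.1 = a.2.2.2.2.1 + 1) && decide (b.2.2.2.2.1 < n) &&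
    live n x a && live n x b) ||
  (decide (a.1 = 0) && decide (b.1 = 1) && decide (a.2.1 = b.2.1) &&
    decide (b.2.2.2.1 = a.2.2.2.1 + 1) && decide (a.2.2.2.1 < n) &&
    decide (a.2.2.2.2.1 + 1 = n) && live n x a)

/-- Exchanging rows and columns. -/
def sw (a : Lb) : Lb :=
  (if a.1 = 1 then 2 else if a.1 = 2 then 1 else a.1,
    a.2.2.1, a.2.1, a.2.2.2.2.1, a.2.2.2.1, a.2.2.2.2.2)

theorem sw_sw (a : Lb) : sw (sw a) = a := by
  obtain ⟨τ, i, j, u, v, c⟩ := a
  unfold sw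
  simp only [Prod.mk.injEq, and_true]
  split_ifs <;> omega

theorem T_iff {n : ℕ} {x : List Bool} {τ i j u v c τ' i' j' u' v' c' : ℕ} :
    T n x (τ, i, j, u, v, c) (τ', i', j', u', v', c') = true ↔
    (τ = 3 ∧ τ' = 1 ∧ u' = 0) ∨ (τ = 1 ∧ τ' = 4 ∧ u = n) ∨
    (τ = 1 ∧ τ' = 0 ∧ i = i' ∧ u = u' ∧ u' < n ∧ v' = 0 ∧ live n x (τ', i', j', u', v', c') = true) ∨
    (τ = 0 ∧ τ' = 0 ∧ i = i' ∧ j = j' ∧ u = u' ∧ u < n ∧ v' = v + 1 ∧ v' < n ∧
      live n x (τ, i, j, u, v, c) = true ∧ live n x (τ', i', j', u', v', c') = true) ∨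
    (τ = 0 ∧ τ' = 1 ∧ i = i' ∧ u' = u + 1 ∧ u < n ∧ v + 1 = n ∧
      live n x (τ, i, j, u, v, c) = true) := by
  unfold T
  simp only [Bool.or_eq_true, Bool.and_eq_true, decide_eq_true_eq, and_assoc, or_assoc]

/-- The valid labels. -/
def Val (n k : ℕ) (a : Lb) : Prop :=
  (a = (3, 0, 0, 0, 0, 0) ∨ a = (4, 0, 0, 0, 0, 0)) ∨
    (a.1 < 3 ∧ a.2.1 < k ∧ a.2.2.1 < k ∧ a.2.2.2.1 < n + 1 ∧ a.2.2.2.2.1 < n + 1 ∧
      a.2.2.2.2.2 < k * k + 1)

theorem Val.sw {n k : ℕ} {a : Lb} (h : Val n k a) : Val n k (sw a) := by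
  rcases h with (rfl | rfl) | ⟨h1, h2, h3, h4, h5, h6⟩
  · exact Or.inl (Or.inl rfl)
  · exact Or.inl (Or.inr rfl)
  · refine Or.inr ⟨?_, h3, h2, h5, h4, h6⟩
    unfold DS.sw
    simp only
    split_ifs <;> omega

/-- `G` has the vertices labelled by the valid labels and the adjacencies `T`. -/
structure Lab {V : Type} (G : SimpleGraph V) (n k : ℕ) (x : List Bool) (s t : V) where
  lab : V → Lb
  inj : Function.Injective lab
  val : ∀ v, Val n k (lab v)
  sur : ∀ a, Val n k a → ∃ v, lab v = a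
  adj : ∀ u v, G.Adj u v ↔ u ≠ v ∧ (T n x (lab u) (lab v) = true ∨ T n x (lab v) (lab u) = true)
  hs : lab s = (3, 0, 0, 0, 0, 0)
  ht : lab t = (4, 0, 0, 0, 0, 0)

variable {V : Type} {G : SimpleGraph V} {n k : ℕ} {x : List Bool} {s t : V}

/-- one of `k * k + 1` copies is outside a small set -/
theorem Lab.copy (L : Lab G n k x s t) {S : Finset V} (hS : S.card ≤ k * k) {τ i j u v : ℕ}
    (h : τ < 3 ∧ i < k ∧ j < k ∧ u < n + 1 ∧ v < n + 1) :
    ∃ c, ∃ w, c < k * k + 1 ∧ w ∉ S ∧ L.lab w = (τ, i, j, u, v, c) := by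
  classical
  by_contra hcon
  push Not at hcon
  have hw : ∀ c : Fin (k * k + 1), ∃ w, L.lab w = (τ, i, j, u, v, (c : ℕ)) := fun c =>
    L.sur _ (Or.inr ⟨h.1, h.2.1, h.2.2.1, h.2.2.2.1, h.2.2.2.2, c.2⟩)
  choose f hf using hw
  have hfS : ∀ c, f c ∈ S := by
    intro c
    by_contra h1
    exact hcon c (f c) c.2 h1 (hf c)
  have hinj : Function.Injective f := by
    intro c c' hcc
    have h1 := hf c
    rw [hcc, hf c'] at h1
    simp only [Prod.mk.injEq, true_and] at h1
    exact Fin.ext h1.symm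
  have h2 := Finset.card_le_card_of_injOn (s := (Finset.univ : Finset (Fin (k * k + 1)))) (t := S) f
    (fun c _ => hfS c) (fun a _ b _ hab => hinj hab)
  rw [Finset.card_univ, Fintype.card_fin] at h2
  omega

theorem Lab.step (L : Lab G n k x s t) {S : Finset V} {u w : V} (hu : u ∉ S) (hw : w ∉ S)
    (h : T n x (L.lab u) (L.lab w) = true) (hr : (del G (S : Set V)).Reachable s u) :
    (del G (S : Set V)).Reachable s w := by
  by_cases hne : u = w
  · rwa [← hne]
  · refine hr.trans (SimpleGraph.Adj.reachable ?_)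
    exact ⟨(L.adj u w).2 ⟨hne, Or.inl h⟩, by simpa using hu, by simpa using hw⟩

/-- In every row some block is met completely by a separator. -/
theorem Lab.row (L : Lab G n k x s t) {S : Finset V} (hS : S.card ≤ k * k) (hsS : s ∉ S)
    (htS : t ∉ S) (hsep : ¬ (del G (S : Set V)).Reachable s t) {i : ℕ} (hi : i < k) :
    ∃ a < n, ∀ j < k, ∃ v < n, alw n x i j a v = true ∧ ∃ w ∈ S, L.lab w = (0, i, j, a, v, 0) := by
  by_contra hcon
  push Not at hcon
  apply hsep
  -- a live vertex outside `S` at every position of a chain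
  have live_at : ∀ a < n, ∃ j < k, ∀ v < n, ∃ w, w ∉ S ∧ ∃ c, L.lab w = (0, i, j, a, v, c) ∧
      live n x (0, i, j, a, v, c) = true := by
    intro a ha
    obtain ⟨j, hj, h⟩ := hcon a ha
    refine ⟨j, hj, fun v hv => ?_⟩
    by_cases hal : alw n x i j a v = true
    · obtain ⟨w, hw⟩ := L.sur (0, i, j, a, v, 0) (Or.inr ⟨by norm_num, hi, hj, by simp only; omega,
        by simp only; omega, by simp only; omega⟩)
      refine ⟨w, fun hwS => h v hv hal w hwS hw, 0, hw, ?_⟩
      unfold live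
      simp
    · obtain ⟨c, w, -, hwS, hw⟩ := L.copy hS (τ := 0) (i := i) (j := j) (u := a) (v := v)
        ⟨by norm_num, hi, hj, by omega, by omega⟩
      refine ⟨w, hwS, c, hw, ?_⟩
      unfold live
      simp only [Bool.or_eq_true, decide_eq_true_eq, Bool.not_eq_true']
      right
      simpa using hal
  -- reachability of the separating nodes
  have hreach : ∀ a ≤ n, ∀ w, w ∉ S → (∃ j v c, L.lab w = (1, i, j, a, v, c)) →
      (del G (S : Set V)).Reachable s w := by
    intro a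
    induction a with
    | zero =>
      rintro - w hwS ⟨j, v, c, hw⟩
      refine L.step hsS hwS ?_ (SimpleGraph.Reachable.refl _)
      rw [L.hs, hw, T_iff]
      exact Or.inl ⟨rfl, rfl, rfl⟩
    | succ a ih =>
      rintro ha w hwS ⟨j0, v0, c0, hw⟩
      obtain ⟨j, hj, hlive⟩ := live_at a (by omega)
      -- the node before the chain
      obtain ⟨c1, w1, -, hw1S, hw1⟩ := L.copy hS (τ := 1) (i := i) (j := j) (u := a) (v := 0)
        ⟨by norm_num, hi, hj, by omega, by omega⟩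
      have h1 := ih (by omega) w1 hw1S ⟨_, _, _, hw1⟩
      -- along the chain
      have hch : ∀ v, v < n → ∀ w2, w2 ∉ S → (∃ c, L.lab w2 = (0, i, j, a, v, c) ∧
          live n x (0, i, j, a, v, c) = true) → (del G (S : Set V)).Reachable s w2 := by
        intro v
        induction v with
        | zero =>
          rintro - w2 hw2S ⟨c, hw2, hlv⟩
          refine L.step hw1S hw2S ?_ h1
          rw [hw1, hw2, T_iff]
          exact Or.inr (Or.inr (Or.inl ⟨rfl, rfl, rfl, rfl, by omega, rfl, hlv⟩))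
        | succ v ihv =>
          rintro hv w2 hw2S ⟨c, hw2, hlv⟩
          obtain ⟨w3, hw3S, c3, hw3, hlv3⟩ := hlive v (by omega)
          have h3 := ihv (by omega) w3 hw3S ⟨c3, hw3, hlv3⟩
          refine L.step hw3S hw2S ?_ h3
          rw [hw3, hw2, T_iff]
          exact Or.inr (Or.inr (Or.inr (Or.inl
            ⟨rfl, rfl, rfl, rfl, rfl, by omega, rfl, hv, hlv3, hlv⟩)))
      obtain ⟨w4, hw4S, c4, hw4, hlv4⟩ := hlive (n - 1) (by omega)
      have h4 := hch (n - 1) (by omega) w4 hw4S ⟨c4, hw4, hlv4⟩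
      refine L.step hw4S hwS ?_ h4
      rw [hw4, hw, T_iff]
      exact Or.inr (Or.inr (Or.inr (Or.inr ⟨rfl, rfl, rfl, rfl, by omega, by omega, hlv4⟩)))
  obtain ⟨c5, w5, -, hw5S, hw5⟩ := L.copy hS (τ := 1) (i := i) (j := i) (u := n) (v := 0)
    ⟨by norm_num, hi, hi, by omega, by omega⟩
  have h5 := hreach n le_rfl w5 hw5S ⟨_, _, _, hw5⟩
  refine L.step hw5S htS ?_ h5
  rw [hw5, L.ht, T_iff]
  exact Or.inr (Or.inl ⟨rfl, rfl, rfl⟩)

/-- The set belonging to a choice of vertices separates. -/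
theorem Lab.separates (L : Lab G n k x s t) {S : Finset V} {f : ℕ → ℕ} (hf : ∀ i < k, f i < n)
    (hal : ∀ i < k, ∀ j < k, alw n x i j (f i) (f j) = true)
    (hS : ∀ w, (∃ i < k, ∃ j < k, L.lab w = (0, i, j, f i, f j, 0)) → w ∈ S) :
    ¬ (del G (S : Set V)).Reachable s t := by
  -- the side of a label
  let P : Lb → Prop := fun a => a.1 = 3 ∨ (a.1 = 1 ∧ a.2.2.2.1 ≤ f a.2.1) ∨
    (a.1 = 0 ∧ (a.2.2.2.1 < f a.2.1 ∨ (a.2.2.2.1 = f a.2.1 ∧ a.2.2.2.2.1 < f a.2.2.1)))
  -- elements at the chosen position are in `S`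
  have hchosen : ∀ w, ∀ i j c, L.lab w = (0, i, j, f i, f j, c) →
      live n x (0, i, j, f i, f j, c) = true → w ∈ S := by
    intro w i j c hw hl
    rcases L.val w with h | h
    · rw [hw] at h
      simp at h
    · rw [hw] at h
      obtain ⟨-, hi, hj, -, -, -⟩ := h
      simp only at hi hj
      unfold live at hl
      simp only [Bool.or_eq_true, decide_eq_true_eq, Bool.not_eq_true', hal i hi j hj,
        reduceCtorEq, or_false] at hl
      subst hl
      exact hS w ⟨i, hi, j, hj, hw⟩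
  have key : ∀ u w, u ∉ S → w ∉ S → T n x (L.lab u) (L.lab w) = true →
      (P (L.lab u) ↔ P (L.lab w)) := by
    intro u w huS hwS h
    obtain ⟨⟨τ, i, j, a, v, c⟩, hlu⟩ : ∃ l, L.lab u = l := ⟨_, rfl⟩
    obtain ⟨⟨τ', i', j', a', v', c'⟩, hlw⟩ : ∃ l, L.lab w = l := ⟨_, rfl⟩
    have hvu := L.val u
    have hvw := L.val w
    rw [hlu] at hvu
    rw [hlw] at hvw
    rw [hlu, hlw] at h ⊢
    rw [T_iff] at h
    unfold Val at hvu hvw
    simp only [Prod.mk.injEq] at hvu hvw
    simp only [P]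
    rcases h with ⟨rfl, rfl, rfl⟩ | ⟨rfl, rfl, rfl⟩ | ⟨rfl, rfl, rfl, rfl, h1, rfl, h2⟩ |
      ⟨rfl, rfl, rfl, rfl, rfl, h1, rfl, h2, h3, h4⟩ | ⟨rfl, rfl, rfl, rfl, h1, h2, h3⟩
    · simp
    · have hi : i < k := by omega
      have := hf i hi
      omega
    · have hne : ¬ (a = f i ∧ f j' = 0) := by
        rintro ⟨h5, h6⟩
        apply hwS
        refine hchosen w i j' c' ?_ ?_
        · rw [hlw, h5, h6]
        · rw [h5] at h2
          rw [h6]
          exact h2
      omega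
    · have hne : ¬ (a = f i ∧ v + 1 = f j) := by
        rintro ⟨h5, h6⟩
        apply hwS
        refine hchosen w i j c' ?_ ?_
        · rw [hlw, h5, h6]
        · rw [h5, h6] at h4
          exact h4
      omega
    · have hj : j < k := by omega
      have := hf j hj
      omega
  have hall : ∀ a w, (del G (S : Set V)).Walk a w → P (L.lab a) → P (L.lab w) := by
    intro a w p
    induction p with
    | nil => exact id
    | @cons u v w h p ih =>
      intro hP
      apply ih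
      obtain ⟨h1, h2, h3⟩ := h
      rcases ((L.adj u v).1 h1).2 with h4 | h4
      · exact (key u v (by simpa using h2) (by simpa using h3) h4).1 hP
      · exact (key v u (by simpa using h3) (by simpa using h2) h4).2 hP
  rintro ⟨p⟩
  have h1 := hall s t p (by rw [L.hs]; exact Or.inl rfl)
  rw [L.ht] at h1
  simp [P] at h1

end Pool.Agent.R550.DS
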