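import Pool.Agent.R550.DS.Main
import Pool.Agent.H671R2.PolyAuto

/-!
# Dual Separator for Two Terminals is W[1]-hard
-/

namespace Pool.Agent.R550.DS

open Pool.Agent.NPC Pool.Agent.H557R2.Fpt Pool.Agent.R550.W1

/-- The list of the labels. -/
def lbs (n k : ℕ) : List Lb :=
  (3, 0, 0, 0, 0, 0) :: (4, 0, 0, 0, 0, 0) ::
    List.product (List.range 3) (List.product (List.range k) (List.product (List.range k)
      (List.product (List.range (n + 1)) (List.product (List.range (n + 1))
        (List.range (k * k + 1))))))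

theorem mem_prd {β γ : Type} {l : List β} {m : List γ} {b : β} {c : γ} :
    (b, c) ∈ List.product l m ↔ b ∈ l ∧ c ∈ m := List.mem_product

theorem mem_lbs {n k : ℕ} {a : Lb} : a ∈ lbs n k ↔ Val n k a := by
  obtain ⟨τ, i, j, u, v, c⟩ := a
  unfold lbs Val
  simp only [List.mem_cons, mem_prd, List.mem_range, or_assoc]

theorem nodup_lbs (n k : ℕ) : (lbs n k).Nodup := by
  unfold lbs
  refine List.nodup_cons.2 ⟨?_, List.nodup_cons.2 ⟨?_, ?_⟩⟩
  · simp
  · simp
  · exact List.nodup_range.product (List.nodup_range.product (List.nodup_range.product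
      (List.nodup_range.product (List.nodup_range.product List.nodup_range))))

/-- The bicolored graph on the list `vs`. -/
def mkA (vs : List Lb) (B R : Lb → Lb → Bool) : List (List ℕ × List ℕ) :=
  vs.map fun a => ((vs.zipIdx.filter fun p => B a p.1).map fun p => p.2,
    (vs.zipIdx.filter fun p => R a p.1).map fun p => p.2)

theorem mkA_length (vs : List Lb) (B R : Lb → Lb → Bool) : (mkA vs B R).length = vs.length := by
  simp [mkA]

theorem mem_idx {vs : List Lb} {B : Lb → Lb → Bool} {a : Lb} {v : ℕ} (hv : v < vs.length) :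
    v ∈ (vs.zipIdx.filter fun p => B a p.1).map (fun p => p.2) ↔ B a (vs[v]) = true := by
  rw [List.mem_map]
  constructor
  · rintro ⟨⟨y, i⟩, h1, h2⟩
    rw [List.mem_filter, List.mem_zipIdx_iff_getElem?] at h1
    simp only at h1 h2
    subst h2
    rw [List.getElem?_eq_getElem hv] at h1
    simp only [Option.some.injEq] at h1
    rw [h1.1]
    exact h1.2
  · intro h
    refine ⟨(vs[v], v), ?_, rfl⟩
    rw [List.mem_filter, List.mem_zipIdx_iff_getElem?]
    exact ⟨List.getElem?_eq_getElem hv, h⟩

/-- The graph of the reduction. -/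
def gA (n k : ℕ) (x : List Bool) : List (List ℕ × List ℕ) :=
  mkA (lbs n k) (T n x) (fun a b => T n x (sw a) (sw b))

theorem gA_length (n k : ℕ) (x : List Bool) : (gA n k x).length = (lbs n k).length := mkA_length _ _ _

/-- The label of a vertex. -/
def lb {n k : ℕ} {x : List Bool} (v : Fin (gA n k x).length) : Lb :=
  (lbs n k)[(v : ℕ)]'(by rw [← gA_length n k x]; exact v.2)

theorem lb_inj {n k : ℕ} {x : List Bool} : Function.Injective (lb (n := n) (k := k) (x := x)) := by
  intro u v h
  exact Fin.ext ((List.Nodup.getElem_inj_iff (nodup_lbs n k)).1 h)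

theorem lb_val {n k : ℕ} {x : List Bool} (v : Fin (gA n k x).length) : Val n k (lb v) :=
  mem_lbs.1 (List.getElem_mem _)

theorem lb_sur {n k : ℕ} {x : List Bool} (a : Lb) (h : Val n k a) :
    ∃ v : Fin (gA n k x).length, lb v = a := by
  obtain ⟨j, hj, hj'⟩ := List.getElem_of_mem (mem_lbs.2 h)
  exact ⟨⟨j, by rw [gA_length]; exact hj⟩, hj'⟩

theorem blue_adj {n k : ℕ} {x : List Bool} (u v : Fin (gA n k x).length) :
    (blue (gA n k x)).Adj u v ↔ u ≠ v ∧ (T n x (lb u) (lb v) = true ∨ T n x (lb v) (lb u) = true) := by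
  have key : ∀ u v : Fin (gA n k x).length, (v : ℕ) ∈ (gA n k x)[u].1 ↔
      T n x (lb u) (lb v) = true := by
    intro u v
    have hv : (v : ℕ) < (lbs n k).length := by rw [← gA_length n k x]; exact v.2
    have h1 : (gA n k x)[u].1 = ((lbs n k).zipIdx.filter fun p => T n x (lb u) p.1).map
        (fun p => p.2) := by
      rw [Fin.getElem_fin]
      simp only [gA, mkA, List.getElem_map]
      rfl
    rw [h1, mem_idx hv]
    rfl
  unfold blue
  rw [SimpleGraph.fromRel_adj, key, key]

theorem red_adj {n k : ℕ} {x : List Bool} (u v : Fin (gA n k x).length) :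
    (red (gA n k x)).Adj u v ↔ u ≠ v ∧
      (T n x (sw (lb u)) (sw (lb v)) = true ∨ T n x (sw (lb v)) (sw (lb u)) = true) := by
  have key : ∀ u v : Fin (gA n k x).length, (v : ℕ) ∈ (gA n k x)[u].2 ↔
      T n x (sw (lb u)) (sw (lb v)) = true := by
    intro u v
    have hv : (v : ℕ) < (lbs n k).length := by rw [← gA_length n k x]; exact v.2
    have h1 : (gA n k x)[u].2 = ((lbs n k).zipIdx.filter fun p => T n x (sw (lb u)) (sw p.1)).map
        (fun p => p.2) := by
      rw [Fin.getElem_fin]
      simp only [gA, mkA, List.getElem_map]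
      rfl
    rw [h1, mem_idx (B := fun a b => T n x (sw a) (sw b)) hv]
    rfl
  unfold red
  rw [SimpleGraph.fromRel_adj, key, key]

theorem T_disj {n : ℕ} {x : List Bool} {a b : Lb} (h : T n x a b = true) :
    ¬ (T n x (sw a) (sw b) = true ∨ T n x (sw b) (sw a) = true) := by
  obtain ⟨τ, i, j, u, v, c⟩ := a
  obtain ⟨τ', i', j', u', v', c'⟩ := b
  unfold sw
  simp only
  rw [T_iff] at h ⊢
  rw [T_iff]
  rcases h with ⟨rfl, rfl, rfl⟩ | ⟨rfl, rfl, rfl⟩ | ⟨rfl, rfl, rfl, rfl, h1, rfl, h2⟩ |
      ⟨rfl, rfl, rfl, rfl, rfl, h1, rfl, h2, h3, h4⟩ | ⟨rfl, rfl, rfl, rfl, h1, h2, h3⟩ <;>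
    simp

theorem disj (n k : ℕ) (x : List Bool) : Disjoint (blue (gA n k x)) (red (gA n k x)) := by
  rw [disjoint_iff]
  ext u v
  rw [SimpleGraph.inf_adj, blue_adj, red_adj, SimpleGraph.bot_adj, iff_false]
  rintro ⟨⟨-, h1⟩, ⟨-, h2⟩⟩
  rcases h1 with h1 | h1
  · exact T_disj h1 h2
  · exact T_disj h1 h2.symm

theorem two_le (n k : ℕ) (x : List Bool) : 2 ≤ (gA n k x).length := by
  rw [gA_length]
  unfold lbs
  simp only [List.length_cons]
  omega

/-- The labelling for the blue graph. -/
def labB (n k : ℕ) (x : List Bool) : Lab (blue (gA n k x)) n k x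
    ⟨0, (show 0 < _ from lt_of_lt_of_le (by norm_num) (two_le n k x))⟩
    ⟨1, (show 1 < _ from lt_of_lt_of_le (by norm_num) (two_le n k x))⟩ where
  lab := lb
  inj := lb_inj
  val := lb_val
  sur := lb_sur
  adj := blue_adj
  hs := rfl
  ht := rfl

/-- The labelling for the red graph. -/
def labR (n k : ℕ) (x : List Bool) : Lab (red (gA n k x)) n k x
    ⟨0, (show 0 < _ from lt_of_lt_of_le (by norm_num) (two_le n k x))⟩
    ⟨1, (show 1 < _ from lt_of_lt_of_le (by norm_num) (two_le n k x))⟩ where
  lab v := sw (lb v)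
  inj u v h := lb_inj (by
    have h' : sw (lb u) = sw (lb v) := h
    rw [← sw_sw (lb u), h', sw_sw])
  val v := (lb_val v).sw
  sur a h := by
    obtain ⟨v, hv⟩ := lb_sur (x := x) (sw a) h.sw
    exact ⟨v, by rw [hv, sw_sw]⟩
  adj := red_adj
  hs := rfl
  ht := rfl

theorem correct (n k : ℕ) (x : List Bool) : ¬ (bitGraph n x).CliqueFree k ↔
    ∃ S : Finset (Fin (gA n k x).length), S.card ≤ k * k ∧
      DualSep (blue (gA n k x)) (red (gA n k x))
        ⟨0, (show 0 < _ from lt_of_lt_of_le (by norm_num) (two_le n k x))⟩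
        ⟨1, (show 1 < _ from lt_of_lt_of_le (by norm_num) (two_le n k x))⟩ S := by
  classical
  constructor
  · intro h
    have φ := SimpleGraph.topEmbeddingOfNotCliqueFree h
    let f : ℕ → ℕ := fun i => if h : i < k then (φ ⟨i, h⟩ : ℕ) else 0
    have hf : ∀ i < k, f i < n := by
      intro i hi
      simp only [f, dif_pos hi]
      exact (φ ⟨i, hi⟩).2
    have hal : ∀ i < k, ∀ j < k, alw n x i j (f i) (f j) = true := by
      intro i hi j hj
      unfold alw
      by_cases hij : i = j
      · subst hij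
        simp
      · have h1 : (bitGraph n x).Adj (φ ⟨i, hi⟩) (φ ⟨j, hj⟩) := by
          rw [φ.map_adj_iff]
          simp only [SimpleGraph.top_adj, ne_eq, Fin.mk.injEq]
          exact hij
        obtain ⟨h2, h3⟩ := h1
        have h4 : f i ≠ f j := by
          simp only [f, dif_pos hi, dif_pos hj]
          exact fun h => h2 (Fin.ext h)
        unfold adjB
        simp only [hij, decide_false, Bool.false_and, Bool.not_false, Bool.true_and, Bool.false_or,
          h4]
        simp only [f, dif_pos hi, dif_pos hj]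
        exact h3
    refine ⟨Finset.univ.filter fun w => ∃ i < k, ∃ j < k, lb w = (0, i, j, f i, f j, 0), ?_, ?_, ?_,
      ?_, ?_⟩
    · have h1 := Finset.card_le_card_of_injOn (s := Finset.univ.filter fun w : Fin (gA n k x).length
          => ∃ i < k, ∃ j < k, lb w = (0, i, j, f i, f j, 0))
        (t := Finset.range k ×ˢ Finset.range k) (fun w => ((lb w).2.1, (lb w).2.2.1)) ?_ ?_
      · rwa [Finset.card_product, Finset.card_range] at h1
      · intro w hw
        obtain ⟨i, hi, j, hj, hw⟩ := (Finset.mem_filter.1 hw).2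
        simp only [hw, Finset.coe_product, Finset.coe_range, Set.mem_prod, Set.mem_Iio]
        exact ⟨hi, hj⟩
      · intro w hw w' hw' hww
        obtain ⟨i, hi, j, hj, hw⟩ := (Finset.mem_filter.1 hw).2
        obtain ⟨i', hi', j', hj', hw'⟩ := (Finset.mem_filter.1 hw').2
        simp only [hw, hw', Prod.mk.injEq] at hww
        obtain ⟨rfl, rfl⟩ := hww
        exact lb_inj (hw.trans hw'.symm)
    · intro h1
      obtain ⟨i, -, j, -, h2⟩ := (Finset.mem_filter.1 h1).2
      have h3 : lb (⟨0, _⟩ : Fin (gA n k x).length) = (3, 0, 0, 0, 0, 0) := (labB n k x).hs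
      rw [h3] at h2
      simp at h2
    · intro h1
      obtain ⟨i, -, j, -, h2⟩ := (Finset.mem_filter.1 h1).2
      have h3 : lb (⟨1, _⟩ : Fin (gA n k x).length) = (4, 0, 0, 0, 0, 0) := (labB n k x).ht
      rw [h3] at h2
      simp at h2
    · refine (labB n k x).separates hf hal fun w hw => ?_
      exact Finset.mem_filter.2 ⟨Finset.mem_univ _, hw⟩
    · refine (labR n k x).separates hf hal fun w hw => ?_
      obtain ⟨i, hi, j, hj, hw⟩ := hw
      refine Finset.mem_filter.2 ⟨Finset.mem_univ _, j, hj, i, hi, ?_⟩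
      have hw' : sw (lb w) = (0, i, j, f i, f j, 0) := hw
      rw [← sw_sw (lb w), hw']
      rfl
  · rintro ⟨S, hS, hs, ht, hB, hR⟩
    have hrow : ∀ i : Fin k, ∃ a < n, ∀ j : Fin k, ∃ v < n, alw n x i j a v = true ∧
        ∃ w ∈ S, lb w = (0, (i : ℕ), (j : ℕ), a, v, 0) := by
      intro i
      obtain ⟨a, ha, h⟩ := (labB n k x).row hS hs ht hB i.2
      exact ⟨a, ha, fun j => h j j.2⟩
    have hcol : ∀ j : Fin k, ∃ b < n, ∀ i : Fin k, ∃ u < n, alw n x j i b u = true ∧
        ∃ w ∈ S, lb w = (0, (i : ℕ), (j : ℕ), u, b, 0) := by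
      intro j
      obtain ⟨b, hb, h⟩ := (labR n k x).row hS hs ht hR j.2
      refine ⟨b, hb, fun i => ?_⟩
      obtain ⟨u, hu, hal, w, hw, hl⟩ := h i i.2
      refine ⟨u, hu, hal, w, hw, ?_⟩
      have hl' : sw (lb w) = (0, (j : ℕ), (i : ℕ), b, u, 0) := hl
      rw [← sw_sw (lb w), hl']
      rfl
    choose a ha hrow using hrow
    choose v hv halr w hwS hw using hrow
    choose b hb hcol using hcol
    choose u hu halc w' hwS' hw' using hcol
    -- the vertices `w i j` are all of `S`
    have hWinj : Function.Injective (fun p : Fin k × Fin k => w p.1 p.2) := by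
      intro p q hpq
      have h1 := hw p.1 p.2
      simp only at hpq
      rw [hpq, hw q.1 q.2] at h1
      simp only [Prod.mk.injEq, true_and] at h1
      exact Prod.ext (Fin.ext h1.1.symm) (Fin.ext h1.2.1.symm)
    have himg : (Finset.univ : Finset (Fin k × Fin k)).image (fun p => w p.1 p.2) = S := by
      refine Finset.eq_of_subset_of_card_le ?_ ?_
      · intro y hy
        obtain ⟨p, -, rfl⟩ := Finset.mem_image.1 hy
        exact hwS p.1 p.2
      · rw [Finset.card_image_of_injective _ hWinj, Finset.card_univ, Fintype.card_prod,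
          Fintype.card_fin]
        exact hS
    have huv : ∀ i j : Fin k, u j i = a i ∧ v i j = b j := by
      intro i j
      have h1 := hwS' j i
      rw [← himg] at h1
      obtain ⟨p, -, hp⟩ := Finset.mem_image.1 h1
      have h2 := hw p.1 p.2
      rw [hp, hw' j i] at h2
      simp only [Prod.mk.injEq, true_and, and_true] at h2
      obtain ⟨h3, h4, h5, h6⟩ := h2
      have e1 : i = p.1 := Fin.ext h3
      have e2 : j = p.2 := Fin.ext h4
      rw [← e1] at h5 h6
      rw [← e2] at h6
      exact ⟨h5, h6.symm⟩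
    have hab : ∀ i : Fin k, a i = b i := by
      intro i
      have h1 := halr i i
      rw [(huv i i).2] at h1
      unfold alw at h1
      simpa using h1
    have hadj : ∀ i j : Fin k, i ≠ j → adjB n x (a i) (a j) = true := by
      intro i j hij
      have h1 := halr i j
      rw [(huv i j).2, ← hab j] at h1
      unfold alw at h1
      have hij' : ¬ ((i : ℕ) = j) := fun h => hij (Fin.ext h)
      simpa [hij'] using h1
    have hne : ∀ i j : Fin k, i ≠ j → a i ≠ a j := by
      intro i j hij h1
      have h2 := hadj i j hij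
      unfold adjB at h2
      simp [h1] at h2
    have hinj : Function.Injective (fun i : Fin k => (⟨a i, ha i⟩ : Fin n)) := by
      intro i j hij
      by_contra h1
      exact hne i j h1 (by simpa using hij)
    intro hcf
    apply hcf (Finset.univ.map ⟨_, hinj⟩)
    rw [SimpleGraph.isNClique_iff]
    refine ⟨?_, by simp⟩
    intro y hy z hz hyz
    simp only [Finset.coe_map, Function.Embedding.coeFn_mk, Finset.coe_univ, Set.image_univ,
      Set.mem_range] at hy hz
    obtain ⟨i, rfl⟩ := hy
    obtain ⟨j, rfl⟩ := hz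
    have hij : i ≠ j := fun h => hyz (by rw [h])
    refine ⟨hyz, ?_⟩
    have h2 := hadj i j hij
    unfold adjB at h2
    simp only [Bool.and_eq_true] at h2
    exact h2.2

section

variable {α : Type} [TEnc α]

theorem poly_alw {n i j u v : α → ℕ} {x : α → List Bool} (hn : NPC.Poly n) (hx : NPC.Poly x)
    (hi : NPC.Poly i) (hj : NPC.Poly j) (hu : NPC.Poly u) (hv : NPC.Poly v) :
    NPC.Poly (fun t => alw (n t) (x t) (i t) (j t) (u t) (v t)) := by
  unfold alw adjB
  fun_prop

theorem poly_live {n : α → ℕ} {x : α → List Bool} {a : α → Lb} (hn : NPC.Poly n) (hx : NPC.Poly x)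
    (ha : NPC.Poly a) : NPC.Poly (fun t => live (n t) (x t) (a t)) := by
  unfold live
  have h1 : NPC.Poly (fun t => alw (n t) (x t) (a t).2.1 (a t).2.2.1 (a t).2.2.2.1
      (a t).2.2.2.2.1) := poly_alw hn hx (by fun_prop) (by fun_prop) (by fun_prop) (by fun_prop)
  fun_prop

theorem poly_T {n : α → ℕ} {x : α → List Bool} {a b : α → Lb} (hn : NPC.Poly n) (hx : NPC.Poly x)
    (ha : NPC.Poly a) (hb : NPC.Poly b) : NPC.Poly (fun t => T (n t) (x t) (a t) (b t)) := by
  unfold T
  have h1 := poly_live hn hx ha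
  have h2 := poly_live hn hx hb
  fun_prop

theorem poly_sw {a : α → Lb} (ha : NPC.Poly a) : NPC.Poly (fun t => sw (a t)) := by
  unfold sw
  fun_prop

end

/-- The reduction. -/
def red' (p : Inp) : List (List ℕ × List ℕ) × ℕ × ℕ := (gA p.1.length p.2.2.length p.2.1, 0, 1)

theorem poly_lbs : NPC.Poly (fun p : Inp => lbs p.1.length p.2.2.length) := by
  have hk : UPoly (fun p : Inp => p.2.2.length) := UPoly.length (by fun_prop)
  have hn : UPoly (fun p : Inp => p.1.length + 1) :=
    UPoly.add (UPoly.length (by fun_prop)) (UPoly.const 1)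
  have hkk : UPoly (fun p : Inp => p.2.2.length * p.2.2.length + 1) :=
    UPoly.add (UPoly.mul hk hk) (UPoly.const 1)
  unfold lbs
  exact NPC.Poly.cons (NPC.Poly.const _) (NPC.Poly.cons (NPC.Poly.const _)
    (poly_product (UPoly.const 3).range (poly_product hk.range (poly_product hk.range
      (poly_product hn.range (poly_product hn.range hkk.range))))))

theorem poly_red' : NPC.Poly red' := by
  unfold red' gA mkA
  refine NPC.Poly.pair ?_ (NPC.Poly.const _)
  have hn : NPC.Poly (fun z : (Inp × Lb) × (Lb × ℕ) => z.1.1.1.length) :=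
    (UPoly.length (by fun_prop)).toPoly
  refine NPC.Poly.map (F := fun (p : Inp) (a : Lb) =>
    (((lbs p.1.length p.2.2.length).zipIdx.filter fun q => T p.1.length p.2.1 a q.1).map
      fun q => q.2, ((lbs p.1.length p.2.2.length).zipIdx.filter fun q =>
        T p.1.length p.2.1 (sw a) (sw q.1)).map fun q => q.2)) poly_lbs ?_
  have hz : NPC.Poly (fun p : Inp × Lb => (lbs p.1.1.length p.1.2.2.length).zipIdx) :=
    NPC.Poly.zipIdx (poly_lbs.comp (NPC.Poly.fst NPC.Poly.id))
  refine NPC.Poly.pair ?_ ?_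
  · refine NPC.Poly.map (F := fun (_ : Inp × Lb) (q : Lb × ℕ) => q.2) ?_ (by fun_prop)
    refine NPC.Poly.filter (p := fun (z : Inp × Lb) (q : Lb × ℕ) =>
      T z.1.1.length z.1.2.1 z.2 q.1) hz ?_
    exact poly_T hn (by fun_prop) (by fun_prop) (by fun_prop)
  · refine NPC.Poly.map (F := fun (_ : Inp × Lb) (q : Lb × ℕ) => q.2) ?_ (by fun_prop)
    refine NPC.Poly.filter (p := fun (z : Inp × Lb) (q : Lb × ℕ) =>
      T z.1.1.length z.1.2.1 (sw z.2) (sw q.1)) hz ?_
    exact poly_T hn (by fun_prop) (poly_sw (by fun_prop)) (poly_sw (by fun_prop))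

/-- The property defining the problem. -/
def PP (b : List (List ℕ × List ℕ) × ℕ × ℕ) (k : ℕ) : Prop :=
  ∃ (hs : b.2.1 < b.1.length) (ht : b.2.2 < b.1.length), b.2.1 ≠ b.2.2 ∧
    Disjoint (blue b.1) (red b.1) ∧ ∃ S : Finset (Fin b.1.length), S.card ≤ k ∧
      DualSep (blue b.1) (red b.1) ⟨b.2.1, hs⟩ ⟨b.2.2, ht⟩ S

theorem prob_eq : prob PP = dualSepTwo := by
  ext y
  constructor
  · rintro ⟨⟨A, s, t⟩, h, hs, ht, hne, hd, hS⟩
    exact ⟨A, s, t, hs, ht, hne, hd, h, hS⟩
  · rintro ⟨A, s, t, hs, ht, hne, hd, h, hS⟩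
    exact ⟨(A, s, t), h, hs, ht, hne, hd, hS⟩

/-- **Dual Separator for Two Terminals is `W[1]`-hard.** -/
theorem w1Hard : W1Hard dualSepTwo := by
  rw [← prob_eq]
  refine w1Hard_prob poly_red' (g := fun k => k * k) ?_
    (computable_mul Computable.id Computable.id) (fun a b h => Nat.mul_le_mul h h) ?_
  · have h : UPoly (fun l : List Unit => l.length) := UPoly.length NPC.Poly.id
    exact UPoly.mul h h
  · intro n k x _
    have e : (¬ (bitGraph n x).CliqueFree k) ↔
        ¬ (bitGraph (List.replicate n ()).length x).CliqueFree (List.replicate k ()).length := by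
      rw [List.length_replicate, List.length_replicate]
    rw [e, correct]
    unfold PP red'
    constructor
    · rintro ⟨S, hS, h⟩
      exact ⟨lt_of_lt_of_le (by norm_num) (two_le _ _ x),
        lt_of_lt_of_le (by norm_num) (two_le _ _ x), by norm_num, disj _ _ x, S,
        by simpa using hS, h⟩
    · rintro ⟨h1, h2, -, -, S, hS, h⟩
      exact ⟨S, by simpa using hS, h⟩

end Pool.Agent.R550.DS
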